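import Mathlib

/-!
# MAX is not the multiplicative ideal generated by Gamma (MP_34bddf_lc)

The set of positive integers is `ℕ+`.  The ultrafilter extension of an operation `op` is `ext op`,
with `A ∈ ext op F G ↔ {n | {m | op n m ∈ A} ∈ G} ∈ F`.

We show that a nonprincipal ultrafilter containing the set of factorials is divisible by every
positive integer but does not belong to the two-sided multiplicative ideal generated by the closure
of the set of additive idempotents.
-/

namespace Pool.Agent.Results.MP_34bddf_lc.MaxNeIdeal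

open Filter Set

/-- The extension to ultrafilters of a binary operation on the positive integers. -/
def ext (op : ℕ+ → ℕ+ → ℕ+) (F G : Ultrafilter ℕ+) : Ultrafilter ℕ+ :=
  F.bind fun n => G.map (op n)

theorem mem_ext (op : ℕ+ → ℕ+ → ℕ+) (F G : Ultrafilter ℕ+) (A : Set ℕ+) :
    A ∈ ext op F G ↔ {n | {m | op n m ∈ A} ∈ G} ∈ F := Iff.rfl

/-- Multiplication on the ultrafilters on the positive integers. -/
def uMul : Ultrafilter ℕ+ → Ultrafilter ℕ+ → Ultrafilter ℕ+ := ext (fun n m => n * m)

/-- Addition on the ultrafilters on the positive integers. -/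
def uAdd : Ultrafilter ℕ+ → Ultrafilter ℕ+ → Ultrafilter ℕ+ := ext (fun n m => n + m)

/-- The ultrafilters divisible by every positive integer. -/
def MAX : Set (Ultrafilter ℕ+) := {F | ∀ n : ℕ+, {m : ℕ+ | n ∣ m} ∈ F}

/-- The topological closure of the set of additive idempotents. -/
def Gam : Set (Ultrafilter ℕ+) := closure {F | uAdd F F = F}

/-- A two-sided multiplicative ideal. -/
def IsMulIdeal (I : Set (Ultrafilter ℕ+)) : Prop :=
  I.Nonempty ∧ ∀ F, ∀ G ∈ I, uMul F G ∈ I ∧ uMul G F ∈ I

/-- The multiplicative ideal generated by a set: the intersection of all ideals containing it. -/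
def mulIdealGen (S : Set (Ultrafilter ℕ+)) : Set (Ultrafilter ℕ+) :=
  ⋂₀ {I | IsMulIdeal I ∧ S ⊆ I}

/-- The auxiliary ideal: every member contains two distinct elements together with their sum. -/
def J : Set (Ultrafilter ℕ+) :=
  {F | ∀ A ∈ F, ∃ a ∈ A, ∃ b ∈ A, a ≠ b ∧ a + b ∈ A}

theorem gam_subset_J : Gam ⊆ J := by
  intro F hF A hA
  have hopen : IsOpen {G : Ultrafilter ℕ+ | A ∈ G} := ultrafilter_isOpen_basic A
  obtain ⟨e, heA, hee⟩ := mem_closure_iff.1 hF _ hopen hA
  have hee' : uAdd e e = e := hee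
  have heA' : A ∈ e := heA
  have h1 : {n | {m | n + m ∈ A} ∈ e} ∈ e := by
    rw [← mem_ext (fun n m => n + m) e e A]
    show A ∈ uAdd e e
    rw [hee']; exact heA'
  obtain ⟨n, hnA, hn⟩ := e.nonempty_of_mem (inter_mem heA' h1)
  have hne : {m : ℕ+ | m ≠ n} ∈ e := by
    by_contra hcon
    have hs : {n} ∈ e := by
      have := (Ultrafilter.compl_mem_iff_notMem).2 hcon
      convert this using 1
      ext x; simp
    have h2 : {n} ∈ uAdd e e := by rw [hee']; exact hs
    have h3 : {k | {m | k + m ∈ ({n} : Set ℕ+)} ∈ e} ∈ e := h2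
    obtain ⟨k, hk, hk2⟩ := e.nonempty_of_mem (inter_mem hs h3)
    obtain ⟨m, hm, hm2⟩ := e.nonempty_of_mem (inter_mem hs hk2)
    have hk' : k = n := hk
    have hm' : m = n := hm
    have hm3 : k + m = n := hm2
    rw [hk', hm'] at hm3
    have h5 := congrArg PNat.val hm3
    have hp := n.pos
    rw [PNat.add_coe] at h5
    omega
  have hn' : {m | n + m ∈ A} ∈ e := hn
  obtain ⟨m, ⟨hmA, hm⟩, hmn⟩ := e.nonempty_of_mem (inter_mem (inter_mem heA' hn') hne)
  exact ⟨n, hnA, m, hmA, Ne.symm hmn, hm⟩

theorem J_nonempty : J.Nonempty := by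
  classical
  -- any additive idempotent
  let _ : AddSemigroup (Ultrafilter ℕ+) := Ultrafilter.addSemigroup
  have hc : ∀ q : Ultrafilter ℕ+, Continuous (fun p : Ultrafilter ℕ+ => p + q) :=
    fun q => Ultrafilter.continuous_add_left q
  obtain ⟨e, he⟩ := exists_idempotent_of_compact_t2_of_continuous_add_left hc
  refine ⟨e, gam_subset_J (subset_closure ?_)⟩
  show uAdd e e = e
  apply Ultrafilter.coe_injective
  ext A
  have h2 : (∀ᶠ x in (e + e : Ultrafilter ℕ+), x ∈ A) ↔
      ∀ᶠ m in e, ∀ᶠ m' in e, m + m' ∈ A := Ultrafilter.eventually_add e e (fun x => x ∈ A)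
  rw [he] at h2
  exact h2.symm

theorem J_ideal : IsMulIdeal J := by
  refine ⟨J_nonempty, fun F G hG => ⟨?_, ?_⟩⟩
  · intro A hA
    have hA' : {n | {m | n * m ∈ A} ∈ G} ∈ F := hA
    obtain ⟨n, hn⟩ := F.nonempty_of_mem hA'
    obtain ⟨a, ha, b, hb, hab, hs⟩ := hG _ hn
    refine ⟨n * a, ha, n * b, hb, fun h => hab (mul_left_cancel h), ?_⟩
    rw [← mul_add]; exact hs
  · intro A hA
    have hA' : {n | {m | n * m ∈ A} ∈ F} ∈ G := hA
    obtain ⟨a, ha, b, hb, hab, hs⟩ := hG _ hA'
    obtain ⟨h, ⟨h1, h2⟩, h3⟩ := F.nonempty_of_mem (inter_mem (inter_mem ha hb) hs)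
    refine ⟨a * h, h1, b * h, h2, fun hh => hab (mul_right_cancel hh), ?_⟩
    rw [← add_mul]; exact h3

/-- The factorials. -/
def fac (n : ℕ) : ℕ+ := ⟨n.factorial, Nat.factorial_pos n⟩

/-- Some ultrafilter in `MAX` does not belong to the multiplicative ideal generated by `Gam`; in
particular `MAX` is not that ideal. -/
theorem result : (∃ F ∈ MAX, F ∉ mulIdealGen Gam) ∧ MAX ≠ mulIdealGen Gam := by
  classical
  -- a nonprincipal ultrafilter on the factorials
  let u : Ultrafilter ℕ+ := (hyperfilter ℕ).map fac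
  have huMAX : u ∈ MAX := by
    intro n
    show fac ⁻¹' {m : ℕ+ | n ∣ m} ∈ hyperfilter ℕ
    have : {k : ℕ | (n : ℕ) ≤ k} ∈ hyperfilter ℕ :=
      Nat.hyperfilter_le_atTop (Ici_mem_atTop _)
    filter_upwards [this] with k hk
    show n ∣ fac k
    rw [PNat.dvd_iff]
    exact Nat.dvd_factorial n.pos hk
  suffices hu' : u ∉ mulIdealGen Gam from ⟨⟨u, huMAX, hu'⟩, fun heq => hu' (heq ▸ huMAX)⟩
  intro hu
  have huJ : u ∈ J := hu J ⟨J_ideal, gam_subset_J⟩
  have hrange : range fac ∈ u := by
    show fac ⁻¹' (range fac) ∈ hyperfilter ℕ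
    rw [preimage_range]
    exact univ_mem
  obtain ⟨a, ⟨i, rfl⟩, b, ⟨j, rfl⟩, hab, ⟨k, hk⟩⟩ := huJ _ hrange
  have hk' : k.factorial = i.factorial + j.factorial := by
    have := congrArg PNat.val hk
    simpa [fac] using this
  have hab' : i.factorial ≠ j.factorial := by
    intro h; exact hab (PNat.eq h)
  -- wlog i! < j!
  have key : ∀ i j : ℕ, i.factorial < j.factorial → k.factorial = i.factorial + j.factorial →
      False := by
    intro i j hij hs
    have hi := Nat.factorial_pos i
    have hj1 : 1 ≤ j := by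
      by_contra h0
      have : j = 0 := by omega
      subst this
      simp at hij
      have := Nat.factorial_pos i
      omega
    have h1 : j.factorial < k.factorial := by omega
    have hjk : j < k := by
      by_contra hh
      exact absurd (Nat.factorial_le (not_lt.1 hh)) (by omega)
    have h2 : (j + 1).factorial ≤ k.factorial := Nat.factorial_le hjk
    rw [Nat.factorial_succ] at h2
    have h3 : 2 * j.factorial ≤ (j + 1) * j.factorial := Nat.mul_le_mul_right _ (by omega)
    omega
  rcases lt_or_gt_of_ne hab' with h | h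
  · exact key i j h hk'
  · exact key j i h (by omega)

end Pool.Agent.Results.MP_34bddf_lc.MaxNeIdeal
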